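import Pool.Agent.Work.MP_d8fac8_al.Core

set_option autoImplicit false

/-!
# The `ℓ`-group of order automorphisms of a chain and embeddings of `ℤ + ℤ`, `ℤ ×ₗ ℤ`
-/

namespace Pool.Agent.Work.MP_d8fac8_al

universe u v w

/-- Order automorphisms of a chain (with its own lattice-ordered group structure). -/
@[ext]
structure OAut (Ω : Type u) [LinearOrder Ω] where
  /-- the automorphism -/
  f : Ω → Ω
  /-- its inverse -/
  g : Ω → Ω
  mono : Monotone f
  mono' : Monotone g
  gf : ∀ x, g (f x) = x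
  fg : ∀ x, f (g x) = x

namespace OAut

variable {Ω : Type u} [LinearOrder Ω]

theorem ext_f {a b : OAut Ω} (h : ∀ x, a.f x = b.f x) : a = b := by
  have hf : a.f = b.f := funext h
  have hg : a.g = b.g := by
    funext x
    have := b.gf (a.g x)
    rw [← this, ← h, a.fg]
  exact OAut.ext hf hg

theorem le_iff_g (a : OAut Ω) (x y : Ω) : a.f x ≤ y ↔ x ≤ a.g y := by
  constructor
  · intro h
    have := a.mono' h
    rwa [a.gf] at this
  · intro h
    have := a.mono h
    rwa [a.fg] at this

theorem le_iff_g' (a : OAut Ω) (x y : Ω) : x ≤ a.f y ↔ a.g x ≤ y := by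
  constructor
  · intro h
    have := a.mono' h
    rwa [a.gf] at this
  · intro h
    have := a.mono h
    rwa [a.fg] at this

instance : Mul (OAut Ω) := ⟨fun a b =>
  { f := fun x => a.f (b.f x)
    g := fun x => b.g (a.g x)
    mono := fun _ _ h => a.mono (b.mono h)
    mono' := fun _ _ h => b.mono' (a.mono' h)
    gf := fun x => by rw [a.gf, b.gf]
    fg := fun x => by rw [b.fg, a.fg] }⟩

instance : One (OAut Ω) := ⟨⟨id, id, monotone_id, monotone_id, fun _ => rfl, fun _ => rfl⟩⟩

instance : Inv (OAut Ω) := ⟨fun a => ⟨a.g, a.f, a.mono', a.mono, a.fg, a.gf⟩⟩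

@[simp] theorem mul_f (a b : OAut Ω) (x : Ω) : (a * b).f x = a.f (b.f x) := rfl
@[simp] theorem one_f (x : Ω) : (1 : OAut Ω).f x = x := rfl
@[simp] theorem inv_f (a : OAut Ω) (x : Ω) : (a⁻¹).f x = a.g x := rfl

instance : Group (OAut Ω) :=
  Group.ofLeftAxioms
    (fun a b c => ext_f fun x => rfl)
    (fun a => ext_f fun x => rfl)
    (fun a => ext_f fun x => by rw [mul_f, inv_f, a.gf, one_f])

instance : PartialOrder (OAut Ω) where
  le a b := ∀ x, a.f x ≤ b.f x
  le_refl a x := le_rfl
  le_trans a b c h1 h2 x := (h1 x).trans (h2 x)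
  le_antisymm a b h1 h2 := ext_f fun x => le_antisymm (h1 x) (h2 x)

theorem le_def (a b : OAut Ω) : a ≤ b ↔ ∀ x, a.f x ≤ b.f x := Iff.rfl

instance : Lattice (OAut Ω) where
  sup a b :=
    { f := fun x => max (a.f x) (b.f x)
      g := fun x => min (a.g x) (b.g x)
      mono := fun x y h => max_le_max (a.mono h) (b.mono h)
      mono' := fun x y h => min_le_min (a.mono' h) (b.mono' h)
      gf := fun x => by
        rcases le_total (a.f x) (b.f x) with h | h
        · rw [max_eq_right h, b.gf]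
          apply min_eq_right
          rw [← le_iff_g]; exact h
        · rw [max_eq_left h, a.gf]
          apply min_eq_left
          rw [← le_iff_g]; exact h
      fg := fun x => by
        rcases le_total (a.g x) (b.g x) with h | h
        · rw [min_eq_left h, a.fg]
          apply max_eq_left
          rw [le_iff_g]; exact h
        · rw [min_eq_right h, b.fg]
          apply max_eq_right
          rw [le_iff_g]; exact h }
  inf a b :=
    { f := fun x => min (a.f x) (b.f x)
      g := fun x => max (a.g x) (b.g x)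
      mono := fun x y h => min_le_min (a.mono h) (b.mono h)
      mono' := fun x y h => max_le_max (a.mono' h) (b.mono' h)
      gf := fun x => by
        rcases le_total (a.f x) (b.f x) with h | h
        · rw [min_eq_left h, a.gf]
          apply max_eq_left
          rw [← le_iff_g']; exact h
        · rw [min_eq_right h, b.gf]
          apply max_eq_right
          rw [← le_iff_g']; exact h
      fg := fun x => by
        rcases le_total (a.g x) (b.g x) with h | h
        · rw [max_eq_right h, b.fg]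
          apply min_eq_right
          rw [le_iff_g']; exact h
        · rw [max_eq_left h, a.fg]
          apply min_eq_left
          rw [le_iff_g']; exact h }
  le_sup_left a b x := le_max_left _ _
  le_sup_right a b x := le_max_right _ _
  sup_le a b c h1 h2 x := max_le (h1 x) (h2 x)
  inf_le_left a b x := min_le_left _ _
  inf_le_right a b x := min_le_right _ _
  le_inf a b c h1 h2 x := le_min (h1 x) (h2 x)

@[simp] theorem sup_f (a b : OAut Ω) (x : Ω) : (a ⊔ b).f x = max (a.f x) (b.f x) := rfl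
@[simp] theorem inf_f (a b : OAut Ω) (x : Ω) : (a ⊓ b).f x = min (a.f x) (b.f x) := rfl

instance : MulLeftMono (OAut Ω) := ⟨fun a _ _ h x => a.mono (h x)⟩
instance : MulRightMono (OAut Ω) := ⟨fun a _ _ h x => h (a.f x)⟩

end OAut

/-! ### Embedding `ℤ + ℤ` -/

section Embed

set_option linter.unusedSectionVars false

variable {G : Type u} [Group G] [Lattice G] [MulLeftMono G] [MulRightMono G]

theorem orth_pow {x y : G} (h : x ⊓ y = 1) (n : ℕ) : (x ^ n) ⊓ y = 1 := by
  induction n with
  | zero => rw [pow_zero]; exact inf_eq_left.2 (one_le_of_orth (orth_comm h))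
  | succ n ih => rw [pow_succ]; exact orth_mul ih h

theorem orth_pow_pow {x y : G} (h : x ⊓ y = 1) (m n : ℕ) : (x ^ m) ⊓ (y ^ n) = 1 :=
  orth_comm (orth_pow (orth_comm (orth_pow h m)) n)

theorem orth_zpow {x y : G} (h : x ⊓ y = 1) {m n : ℤ} (hm : 0 ≤ m) (hn : 0 ≤ n) :
    (x ^ m) ⊓ (y ^ n) = 1 := by
  obtain ⟨m, rfl⟩ := Int.eq_ofNat_of_zero_le hm
  obtain ⟨n, rfl⟩ := Int.eq_ofNat_of_zero_le hn
  simpa using orth_pow_pow h m n

theorem zpow_mono_of_one_le {x : G} (h : 1 ≤ x) {m n : ℤ} (hmn : m ≤ n) : x ^ m ≤ x ^ n := by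
  have : x ^ n = x ^ m * x ^ (n - m) := by rw [← zpow_add]; congr 1; ring
  rw [this]
  exact le_mul_of_one_le_right' (one_le_zpow h (by omega))

/-- `(a^p b^q) ⊔ 1 = a^(p⁺) b^(q⁺)` for orthogonal `a`, `b`. -/
theorem orth_sup_one {a b : G} (h : a ⊓ b = 1) (p q : ℤ) :
    a ^ p * b ^ q ⊔ 1 = a ^ (max p 0) * b ^ (max q 0) := by
  have ha : 1 ≤ a := one_le_of_orth h
  have hb : 1 ≤ b := one_le_of_orth (orth_comm h)
  have hc : Commute a b := orth_commute h
  rcases le_total 0 p with hp | hp <;> rcases le_total 0 q with hq | hq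
  · rw [max_eq_left hp, max_eq_left hq]
    exact sup_eq_left.2 (one_le_mul (one_le_zpow ha hp) (one_le_zpow hb hq))
  · rw [max_eq_left hp, max_eq_right hq, zpow_zero, mul_one]
    have h1 : a ^ p * b ^ q ⊔ 1 = (a ^ p ⊔ b ^ (-q)) * b ^ q := by
      rw [sup_mul, ← zpow_add, neg_add_cancel, zpow_zero]
    rw [h1, ← orth_mul_eq_sup (orth_zpow h hp (by omega)), mul_assoc, ← zpow_add, neg_add_cancel,
      zpow_zero, mul_one]
  · rw [max_eq_right hp, max_eq_left hq, zpow_zero, one_mul]
    have h1 : a ^ p * b ^ q ⊔ 1 = a ^ p * (b ^ q ⊔ a ^ (-p)) := by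
      rw [mul_sup, ← zpow_add, add_neg_cancel, zpow_zero]
    rw [h1, sup_comm, ← orth_mul_eq_sup (orth_zpow h (by omega) hq), ← mul_assoc, ← zpow_add,
      add_neg_cancel, zpow_zero, one_mul]
  · rw [max_eq_right hp, max_eq_right hq, zpow_zero, zpow_zero, one_mul]
    exact sup_eq_right.2 (mul_le_one' (by simpa using zpow_mono_of_one_le ha hp)
      (by simpa using zpow_mono_of_one_le hb hq))

/-- The homomorphism `ℤ + ℤ → G`, `(m, n) ↦ a^m b^n`. -/
def prodHom (a b : G) (hc : Commute a b) : Multiplicative ℤ × Multiplicative ℤ →* G where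
  toFun z := a ^ (z.1.toAdd) * b ^ (z.2.toAdd)
  map_one' := by simp
  map_mul' x y := by
    simp only [Prod.fst_mul, Prod.snd_mul, toAdd_mul, zpow_add]
    have := (hc.zpow_zpow (y.1.toAdd) (x.2.toAdd)).eq
    rw [mul_assoc, mul_assoc, ← mul_assoc (a ^ _) (b ^ _) (b ^ _), this]
    simp only [mul_assoc]

theorem prodHom_apply (a b : G) (hc : Commute a b) (z : Multiplicative ℤ × Multiplicative ℤ) :
    prodHom a b hc z = a ^ (z.1.toAdd) * b ^ (z.2.toAdd) := rfl

theorem isLEmbedding_of_sup_one {A : Type v} [Group A] [Lattice A] [MulLeftMono A] [MulRightMono A]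
    (f : A →* G) (hinj : Function.Injective f) (h : ∀ x, f (x ⊔ 1) = f x ⊔ 1) :
    IsLEmbedding f := by
  have hsup : ∀ x y, f (x ⊔ y) = f x ⊔ f y := by
    intro x y
    have h1 : x ⊔ y = (x * y⁻¹ ⊔ 1) * y := by rw [sup_mul]; simp
    have h2 : f x ⊔ f y = (f (x * y⁻¹) ⊔ 1) * f y := by rw [sup_mul, ← map_mul]; simp
    rw [h1, map_mul, h, h2]
  refine ⟨hinj, ?_, hsup⟩
  intro x y
  have h1 : x ⊓ y = (x⁻¹ ⊔ y⁻¹)⁻¹ := by rw [inv_sup]; simp
  rw [h1, map_inv, hsup, inv_sup, map_inv, map_inv, inv_inv, inv_inv]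

theorem zpow_eq_one_of {a : G} (ha : 1 < a) {m : ℤ} (h : a ^ m = 1) : m = 0 := by
  by_contra hm
  rcases lt_or_gt_of_ne hm with h1 | h1
  · have : 1 ≤ a ^ (-m - 1) := one_le_zpow ha.le (by omega)
    have h2 : a ^ (-m) = 1 := by rw [zpow_neg, h, inv_one]
    have h3 : a ^ (-m) = a ^ (-m - 1) * a := by rw [← zpow_add_one]; congr 1; ring
    rw [h2] at h3
    have h4 : a ≤ 1 := by rw [h3]; exact le_mul_of_one_le_left' this
    exact absurd h4 (not_le_of_gt ha)
  · have : 1 ≤ a ^ (m - 1) := one_le_zpow ha.le (by omega)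
    have h3 : a ^ m = a ^ (m - 1) * a := by rw [← zpow_add_one]; congr 1; ring
    rw [h] at h3
    have h4 : a ≤ 1 := by rw [h3]; exact le_mul_of_one_le_left' this
    exact absurd h4 (not_le_of_gt ha)

theorem prodHom_isLEmbedding {a b : G} (h : a ⊓ b = 1) (hc : Commute a b) (ha : 1 < a)
    (hb : 1 < b) : IsLEmbedding (prodHom a b hc) := by
  have hsup1 : ∀ x, prodHom a b hc (x ⊔ 1) = prodHom a b hc x ⊔ 1 := by
    intro x
    rw [prodHom_apply, prodHom_apply, orth_sup_one h]
    rfl
  refine isLEmbedding_of_sup_one _ ?_ hsup1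
  rw [injective_iff_map_eq_one]
  intro z hz
  -- positive parts
  have key : ∀ p q : ℤ, a ^ p * b ^ q = 1 → p ≤ 0 ∧ q ≤ 0 := by
    intro p q hpq
    have h1 := orth_sup_one h p q
    rw [hpq, sup_idem] at h1
    have h2 : 1 ≤ a ^ (max p 0) := one_le_zpow ha.le (le_max_right _ _)
    have h3 : 1 ≤ b ^ (max q 0) := one_le_zpow hb.le (le_max_right _ _)
    have h4 : a ^ (max p 0) = 1 := by
      refine le_antisymm ?_ h2
      rw [h1]; exact le_mul_of_one_le_right' h3
    have h5 : b ^ (max q 0) = 1 := by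
      refine le_antisymm ?_ h3
      rw [h1]; exact le_mul_of_one_le_left' h2
    have h6 := zpow_eq_one_of ha h4
    have h7 := zpow_eq_one_of hb h5
    exact ⟨by have := le_max_left p 0; omega, by have := le_max_left q 0; omega⟩
  rw [prodHom_apply] at hz
  have h1 := key _ _ hz
  have h2 := key (-z.1.toAdd) (-z.2.toAdd) (by
    rw [zpow_neg, zpow_neg, ← mul_inv_rev,
      (hc.zpow_zpow z.1.toAdd z.2.toAdd).eq.symm, hz, inv_one])
  have e1 : z.1.toAdd = 0 := by omega
  have e2 : z.2.toAdd = 0 := by omega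
  exact Prod.ext e1 e2

/-- The homomorphism `ℤ ×ₗ ℤ → G`, `(m, n) ↦ b^m a^n`. -/
def lexHom (a b : G) (hc : Commute b a) : (Multiplicative ℤ ×ₗ Multiplicative ℤ) →* G where
  toFun z := prodHom b a hc (ofLex z)
  map_one' := by rw [ofLex_one, map_one]
  map_mul' x y := by rw [ofLex_mul, map_mul]

theorem lexHom_apply (a b : G) (hc : Commute b a) (z : Multiplicative ℤ ×ₗ Multiplicative ℤ) :
    lexHom a b hc z = b ^ ((ofLex z).1.toAdd) * a ^ ((ofLex z).2.toAdd) := rfl

theorem lexHom_isLEmbedding {a b : G} (hc : Commute b a) (ha : 1 < a) (hab : ∀ n : ℕ, a ^ n ≤ b) :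
    IsLEmbedding (lexHom a b hc) := by
  have hb : 1 < b := by
    have := hab 1
    rw [pow_one] at this
    exact ha.trans_le this
  -- positivity
  have hpos : ∀ m n : ℤ, (0 < m ∨ (m = 0 ∧ 0 < n)) → 1 < b ^ m * a ^ n := by
    rintro m n (hm | ⟨rfl, hn⟩)
    · have h1 : 1 < b * a ^ n := by
        rcases le_total 0 n with hn | hn
        · exact hb.trans_le (le_mul_of_one_le_right' (one_le_zpow ha.le hn))
        · obtain ⟨k, rfl⟩ : ∃ k : ℕ, n = -(k : ℤ) := ⟨n.natAbs, by omega⟩
          have h2 : a ^ (k + 1) ≤ b := hab (k + 1)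
          have h3 : a ≤ b * a ^ (-(k : ℤ)) := by
            have := mul_le_mul_left h2 (a ^ (-(k : ℤ)))
            refine le_trans (le_of_eq ?_) this
            rw [← zpow_natCast, ← zpow_add]
            simp
          exact ha.trans_le h3
      have h2 : b ^ m * a ^ n = b ^ (m - 1) * (b * a ^ n) := by
        rw [← mul_assoc, ← zpow_add_one]; congr 2; ring
      rw [h2]
      exact h1.trans_le (le_mul_of_one_le_left' (one_le_zpow hb.le (by omega)))
    · rw [zpow_zero, one_mul]
      have h2 : a ^ n = a ^ (n - 1) * a := by rw [← zpow_add_one]; congr 1; ring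
      rw [h2]
      exact ha.trans_le (le_mul_of_one_le_left' (one_le_zpow ha.le (by omega)))
  have hpos' : ∀ z : Multiplicative ℤ ×ₗ Multiplicative ℤ, 1 < z → 1 < lexHom a b hc z := by
    intro z hz
    rw [lexHom_apply]
    apply hpos
    rw [Prod.Lex.lt_iff] at hz
    rcases hz with hz | ⟨hz1, hz2⟩
    · exact Or.inl hz
    · exact Or.inr ⟨hz1.symm, hz2⟩
  refine isLEmbedding_of_sup_one _ ?_ ?_
  · rw [injective_iff_map_eq_one]
    intro z hz
    by_contra hne
    rcases lt_or_gt_of_ne hne with h | h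
    · have h1 := hpos' z⁻¹ (one_lt_inv'.2 h)
      rw [map_inv, hz, inv_one] at h1
      exact lt_irrefl _ h1
    · have h1 := hpos' z h
      rw [hz] at h1
      exact lt_irrefl _ h1
  · intro z
    rcases le_or_gt z 1 with h | h
    · rw [sup_eq_right.2 h, map_one]
      symm
      apply sup_eq_right.2
      rcases h.eq_or_lt with h | h
      · rw [h, map_one]
      · have h1 := hpos' z⁻¹ (one_lt_inv'.2 h)
        rw [map_inv] at h1
        exact (Left.one_lt_inv_iff.1 h1).le
    · rw [sup_eq_left.2 h.le]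
      exact (sup_eq_left.2 (hpos' z h).le).symm

end Embed

end Pool.Agent.Work.MP_d8fac8_al
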