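import Mathlib

set_option autoImplicit false

/-!
# Lattice-ordered groups: amalgamation bases and the core obstruction
-/

namespace Pool.Agent.Work.MP_d8fac8_al

universe u v w

/-- An `ℓ`-embedding: an injective group homomorphism preserving `⊓` and `⊔`. -/
structure IsLEmbedding {A : Type u} {B : Type v} [Group A] [Lattice A] [Group B] [Lattice B]
    (f : A →* B) : Prop where
  injective : Function.Injective f
  map_inf : ∀ x y, f (x ⊓ y) = f x ⊓ f y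
  map_sup : ∀ x y, f (x ⊔ y) = f x ⊔ f y

/-- `A` is an amalgamation base for the class of all `ℓ`-groups: any two `ℓ`-embeddings
`f : A → B`, `g : A → C` into `ℓ`-groups can be completed by `ℓ`-embeddings `f' : B → D`,
`g' : C → D` into an `ℓ`-group `D` with `f' ∘ f = g' ∘ g`. An `ℓ`-group is a group with a lattice
order invariant under left and right translations. -/
def IsAmalgamationBase (A : Type u) [Group A] [Lattice A] : Prop :=
  ∀ (B C : Type v) [Group B] [Lattice B] [MulLeftMono B] [MulRightMono B]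
    [Group C] [Lattice C] [MulLeftMono C] [MulRightMono C] (f : A →* B) (g : A →* C),
    IsLEmbedding f → IsLEmbedding g →
    ∃ (D : Type w) (_ : Group D) (_ : Lattice D) (_ : MulLeftMono D) (_ : MulRightMono D)
      (f' : B →* D) (g' : C →* D),
      IsLEmbedding f' ∧ IsLEmbedding g' ∧ f'.comp f = g'.comp g

set_option linter.unusedSectionVars false

section General

variable {D : Type u} [Group D] [Lattice D] [MulLeftMono D] [MulRightMono D]

theorem one_le_of_orth {x y : D} (h : x ⊓ y = 1) : 1 ≤ x := by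
  rw [← h]; exact inf_le_left

theorem orth_comm {x y : D} (h : x ⊓ y = 1) : y ⊓ x = 1 := by rwa [inf_comm]

/-- `(x z) ⊓ y = 1` if `x ⊓ y = 1` and `z ⊓ y = 1`. -/
theorem orth_mul {x y z : D} (h1 : x ⊓ y = 1) (h2 : z ⊓ y = 1) : (x * z) ⊓ y = 1 := by
  have hx : 1 ≤ x := one_le_of_orth h1
  have hz : 1 ≤ z := one_le_of_orth h2
  have hy : 1 ≤ y := one_le_of_orth (orth_comm h1)
  apply le_antisymm
  · have h3 : (x ⊓ y) * (z ⊓ y) = 1 := by rw [h1, h2, one_mul]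
    rw [← h3, inf_mul, mul_inf, mul_inf]
    refine le_inf (le_inf inf_le_left ?_) (le_inf ?_ ?_)
    · exact inf_le_right.trans (le_mul_of_one_le_left' hx)
    · exact inf_le_right.trans (le_mul_of_one_le_right' hz)
    · exact inf_le_right.trans (le_mul_of_one_le_left' hy)
  · exact le_inf (one_le_mul hx hz) hy

theorem orth_mono {x y x' y' : D} (h : x ⊓ y = 1) (hx : x' ≤ x) (hy : y' ≤ y) (hx1 : 1 ≤ x')
    (hy1 : 1 ≤ y') : x' ⊓ y' = 1 := by
  apply le_antisymm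
  · rw [← h]; exact inf_le_inf hx hy
  · exact le_inf hx1 hy1

theorem orth_conj {x y : D} (h : x ⊓ y = 1) (g : D) : (g⁻¹ * x * g) ⊓ (g⁻¹ * y * g) = 1 := by
  rw [← inf_mul, ← mul_inf, h]; group

theorem orth_mul_eq_sup {x y : D} (h : x ⊓ y = 1) : x * y = x ⊔ y := by
  have h1 : x * (x ⊓ y)⁻¹ * y = x ⊔ y := by
    rw [inv_inf, mul_sup, sup_mul]
    simp [sup_comm]
  rw [← h1, h]; simp

theorem orth_commute {x y : D} (h : x ⊓ y = 1) : x * y = y * x := by
  rw [orth_mul_eq_sup h, orth_mul_eq_sup (orth_comm h), sup_comm]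

/-- Existence of convex prime subgroups avoiding a positive element. -/
theorem exists_prime {a : D} (ha : 1 < a) : ∃ P : Subgroup D,
    (∀ x y, 1 ≤ x → x ≤ y → y ∈ P → x ∈ P) ∧ (∀ x y, x ⊓ y = 1 → x ∈ P ∨ y ∈ P) ∧ a ∉ P := by
  classical
  let S : Set (Set D) := {F | a ∈ F ∧ (∀ x ∈ F, ∀ y ∈ F, x ⊓ y ∈ F) ∧ ∀ x ∈ F, 1 < x}
  have h0 : ({a} : Set D) ∈ S := by
    refine ⟨rfl, ?_, ?_⟩
    · rintro x rfl y rfl
      simp
    · rintro x rfl
      exact ha
  obtain ⟨F, -, hF⟩ := zorn_subset_nonempty S (by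
    intro c hc hchain hne
    refine ⟨⋃₀ c, ⟨?_, ?_, ?_⟩, fun s hs => Set.subset_sUnion_of_mem hs⟩
    · obtain ⟨s, hs⟩ := hne
      exact ⟨s, hs, (hc hs).1⟩
    · rintro x ⟨s, hs, hx⟩ y ⟨t, ht, hy⟩
      rcases hchain.total hs ht with h | h
      · exact ⟨t, ht, (hc ht).2.1 x (h hx) y hy⟩
      · exact ⟨s, hs, (hc hs).2.1 x hx y (h hy)⟩
    · rintro x ⟨s, hs, hx⟩
      exact (hc hs).2.2 x hx) {a} h0
  obtain ⟨haF, hinf, hpos⟩ := hF.prop
  let P : Subgroup D :=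
    { carrier := {g | ∃ f ∈ F, ∃ p, p ⊓ f = 1 ∧ p⁻¹ ≤ g ∧ g ≤ p}
      one_mem' := ⟨a, haF, 1, inf_eq_left.2 ha.le, by simp, le_rfl⟩
      mul_mem' := by
        rintro g g' ⟨f, hf, p, hp, h1, h2⟩ ⟨f', hf', q, hq, h1', h2'⟩
        have hp1 : 1 ≤ p := one_le_of_orth hp
        have hq1 : 1 ≤ q := one_le_of_orth hq
        have hff : 1 ≤ f ⊓ f' := (hpos _ (hinf f hf f' hf')).le
        have hp' : p ⊓ (f ⊓ f') = 1 := orth_mono hp le_rfl inf_le_left hp1 hff
        have hq' : q ⊓ (f ⊓ f') = 1 := orth_mono hq le_rfl inf_le_right hq1 hff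
        refine ⟨f ⊓ f', hinf f hf f' hf', p * q * p, orth_mul (orth_mul hp' hq') hp', ?_, ?_⟩
        · have : (p * q * p)⁻¹ = p⁻¹ * (q⁻¹ * p⁻¹) := by group
          rw [this]
          refine mul_le_mul' h1 (le_trans ?_ h1')
          exact mul_le_of_le_one_right' (Left.inv_le_one_iff.2 hp1)
        · refine (mul_le_mul' h2 h2').trans ?_
          exact le_mul_of_one_le_right' hp1
      inv_mem' := by
        rintro g ⟨f, hf, p, hp, h1, h2⟩
        exact ⟨f, hf, p, hp, inv_le_inv_iff.2 h2, by simpa using inv_le_inv_iff.2 h1⟩ }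
  have hPmem : ∀ g, g ∈ P ↔ ∃ f ∈ F, ∃ p, p ⊓ f = 1 ∧ p⁻¹ ≤ g ∧ g ≤ p := fun g => Iff.rfl
  refine ⟨P, ?_, ?_, ?_⟩
  · intro x y hx hxy hy
    obtain ⟨f, hf, p, hp, h1, h2⟩ := (hPmem y).1 hy
    exact (hPmem x).2 ⟨f, hf, p, hp,
      (Left.inv_le_one_iff.2 (one_le_of_orth hp)).trans hx, hxy.trans h2⟩
  · intro x y hxy
    have hx : 1 ≤ x := one_le_of_orth hxy
    have hy : 1 ≤ y := one_le_of_orth (orth_comm hxy)
    by_cases hxP : x ∈ P
    · exact Or.inl hxP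
    right
    have h1 : ∀ f ∈ F, 1 < x ⊓ f := by
      intro f hf
      refine lt_of_le_of_ne (le_inf hx (hpos f hf).le) ?_
      intro h
      exact hxP ((hPmem x).2 ⟨f, hf, x, h.symm, (Left.inv_le_one_iff.2 hx).trans hx, le_rfl⟩)
    have h2 : (F ∪ (fun f => x ⊓ f) '' F) ∈ S := by
      refine ⟨Or.inl haF, ?_, ?_⟩
      · rintro z (hz | ⟨f, hf, rfl⟩) z' (hz' | ⟨f', hf', rfl⟩)
        · exact Or.inl (hinf z hz z' hz')
        · refine Or.inr ⟨z ⊓ f', hinf z hz f' hf', ?_⟩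
          simp only
          rw [← inf_assoc, ← inf_assoc, inf_comm x z]
        · refine Or.inr ⟨f ⊓ z', hinf f hf z' hz', ?_⟩
          simp only
          rw [inf_assoc]
        · refine Or.inr ⟨f ⊓ f', hinf f hf f' hf', ?_⟩
          simp only
          rw [inf_inf_distrib_left]
      · rintro z (hz | ⟨f, hf, rfl⟩)
        · exact hpos z hz
        · exact h1 f hf
    have h3 : x ⊓ a ∈ F := by
      have := hF.le_of_ge h2 Set.subset_union_left
      exact this (Or.inr ⟨a, haF, rfl⟩)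
    refine (hPmem y).2 ⟨x ⊓ a, h3, y, ?_, (Left.inv_le_one_iff.2 hy).trans hy, le_rfl⟩
    rw [← inf_assoc, inf_comm y x, hxy]
    exact inf_eq_left.2 ha.le
  · intro haP
    obtain ⟨f, hf, p, hp, h1, h2⟩ := (hPmem a).1 haP
    have h3 : a ⊓ f ≤ 1 := by
      rw [← hp]; exact inf_le_inf h2 le_rfl
    exact absurd h3 (not_le_of_gt (hpos _ (hinf a haF f hf)))

/-- **Core obstruction.** No `ℓ`-group contains elements with all of the following relations. -/
theorem core {α₁ α β h k y x₁ x₂ : D} (h1 : 1 < α₁) (h2 : α₁ ≤ α) (h3 : h ⊓ α₁ = 1)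
    (h4 : h * β = β * h) (h5 : 1 ≤ k) (h6 : k ≤ h) (h7 : k * β * k⁻¹ ≤ α) (h8 : α ⊓ β = 1)
    (hy : 1 ≤ y) (h9 : y * α * y⁻¹ ≤ β) (h10 : y ≤ x₂ * x₁) (h11 : x₁ ⊓ β = 1)
    (h12 : x₂ ⊓ α = 1) : False := by
  obtain ⟨P, hconv, hprime, hP⟩ := exists_prime h1
  have hα : 1 ≤ α := one_le_of_orth h8
  have hβ : 1 ≤ β := one_le_of_orth (orth_comm h8)
  have hαP : α ∉ P := fun h => hP (hconv _ _ h1.le h2 h)
  have hhP : h ∈ P := (hprime _ _ h3).resolve_right hP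
  have conj_one_le : ∀ (z g : D), 1 ≤ z → 1 ≤ g⁻¹ * z * g := by
    intro z g hz
    have := mul_le_mul_left (mul_le_mul_right hz g⁻¹) g
    simpa using this
  -- the upper set `U`
  let U : Set D := {ω | ∃ ω', ω'⁻¹ * β * ω' ∉ P ∧ (∀ p ∈ P, ¬ ω' ≤ p) ∧ ∃ p ∈ P, ω' ≤ ω * p}
  -- the element `y` witnesses `x₂ x₁ ∈ U`
  have hyβ : y⁻¹ * β * y ∉ P := by
    intro hmem
    apply hαP
    refine hconv _ _ hα ?_ hmem
    have := mul_le_mul_left (mul_le_mul_right h9 y⁻¹) y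
    simpa [mul_assoc] using this
  have hyP : ∀ p ∈ P, ¬ y ≤ p := by
    intro p hp hyp
    have hyP' : y ∈ P := hconv _ _ hy hyp hp
    have hβP : β ∉ P := by
      intro hβP
      exact hyβ (P.mul_mem (P.mul_mem (P.inv_mem hyP') hβP) hyP')
    exact (hprime _ _ h8).elim hαP hβP
  have hU1 : x₂ * x₁ ∈ U := ⟨y, hyβ, hyP, 1, P.one_mem, by simpa using h10⟩
  -- invariance under `x₂⁻¹`
  have hU2 : x₁ ∈ U := by
    obtain ⟨ω', hω1, hω2, p, hp, hω3⟩ := hU1
    have e1 : (h⁻¹ * ω')⁻¹ * β * (h⁻¹ * ω') = ω'⁻¹ * β * ω' := by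
      have : h * β * h⁻¹ = β := by rw [h4]; group
      calc (h⁻¹ * ω')⁻¹ * β * (h⁻¹ * ω') = ω'⁻¹ * (h * β * h⁻¹) * ω' := by group
        _ = _ := by rw [this]
    have e2 : (k * (h⁻¹ * ω'))⁻¹ * (k * β * k⁻¹) * (k * (h⁻¹ * ω')) = ω'⁻¹ * β * ω' := by
      rw [← e1]; group
    have e3 : (k * (h⁻¹ * ω'))⁻¹ * α * (k * (h⁻¹ * ω')) ∉ P := by
      intro hmem
      apply hω1
      rw [← e2]
      refine hconv _ _ ?_ ?_ hmem
      · rw [e2]; exact conj_one_le _ _ hβ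
      · exact mul_le_mul_left (mul_le_mul_right h7 _) _
    have e4 : (k * (h⁻¹ * ω'))⁻¹ * x₂ * (k * (h⁻¹ * ω')) ∈ P :=
      (hprime _ _ (orth_conj h12 _)).resolve_right e3
    set ω₂ := k * (h⁻¹ * ω') with hω₂
    have e5 : ω₂ ≤ ω' := by
      have : ω₂ = (k * h⁻¹) * ω' := by rw [hω₂]; group
      rw [this]
      refine mul_le_of_le_one_left' ?_
      exact mul_inv_le_one_iff_le.2 h6
    -- `x₂ ω₂ = ω₂ q`
    have e6 : x₂ * ω₂ = ω₂ * (ω₂⁻¹ * x₂ * ω₂) := by group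
    set q := ω₂⁻¹ * x₂ * ω₂ with hq
    refine ⟨h⁻¹ * ω', by rw [e1]; exact hω1, ?_, p * q, P.mul_mem hp e4, ?_⟩
    · intro r hr hle
      apply hω2 (h * r) (P.mul_mem hhP hr)
      have := mul_le_mul_right hle h
      simpa using this
    · have e7 : ω₂ ≤ x₂ * x₁ * p := e5.trans hω3
      have e8 : x₂ * (ω₂ * q⁻¹) ≤ x₂ * (x₁ * p) := by
        have : x₂ * (ω₂ * q⁻¹) = ω₂ := by
          rw [← mul_assoc, e6]; group
        rw [this, ← mul_assoc]; exact e7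
      have e9 : ω₂ * q⁻¹ ≤ x₁ * p := le_of_mul_le_mul_left' e8
      have e10 : ω₂ ≤ x₁ * (p * q) := by
        have := mul_le_mul_left e9 q
        simpa [mul_assoc] using this
      refine le_trans ?_ e10
      exact le_mul_of_one_le_left' h5
  -- invariance under `x₁⁻¹`
  have hU3 : (1 : D) ∈ U := by
    obtain ⟨ω', hω1, hω2, p, hp, hω3⟩ := hU2
    have e4 : ω'⁻¹ * x₁ * ω' ∈ P :=
      (hprime _ _ (orth_conj h11 _)).resolve_right hω1
    have e6 : x₁ * ω' = ω' * (ω'⁻¹ * x₁ * ω') := by group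
    set q := ω'⁻¹ * x₁ * ω' with hq
    refine ⟨ω', hω1, hω2, p * q, P.mul_mem hp e4, ?_⟩
    have e8 : x₁ * (ω' * q⁻¹) ≤ x₁ * p := by
      have : x₁ * (ω' * q⁻¹) = ω' := by
        rw [← mul_assoc, e6]; group
      rw [this]; exact hω3
    have e9 : ω' * q⁻¹ ≤ p := le_of_mul_le_mul_left' e8
    have := mul_le_mul_left e9 q
    simpa [mul_assoc] using this
  obtain ⟨ω', hω1, hω2, p, hp, hω3⟩ := hU3
  exact hω2 p hp (by simpa using hω3)

end General

end Pool.Agent.Work.MP_d8fac8_al
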