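import Pool.Agent.Work.MP_d8fac8_al.Constr

set_option autoImplicit false

/-!
# Concrete automorphisms of chains
-/

namespace Pool.Agent.Work.MP_d8fac8_al

universe u v w

namespace IsLEmbedding

variable {A : Type u} {B : Type v} [Group A] [Lattice A] [Group B] [Lattice B] {f : A →* B}

theorem le (hf : IsLEmbedding f) {x y : A} (h : x ≤ y) : f x ≤ f y := by
  rw [← inf_eq_left, ← hf.map_inf, inf_eq_left.2 h]

theorem lt (hf : IsLEmbedding f) {x y : A} (h : x < y) : f x < f y :=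
  lt_of_le_of_ne (hf.le h.le) fun h' => h.ne (hf.injective h')

theorem orth (hf : IsLEmbedding f) {x y : A} (h : x ⊓ y = 1) : f x ⊓ f y = 1 := by
  rw [← hf.map_inf, h, map_one]

end IsLEmbedding

/-! ### Lexicographic products `ℤ ×ₗ M` -/

section Lex

variable {M : Type} [LinearOrder M]

/-- The automorphism `(m, x) ↦ (m + c, σ_m x)` of `ℤ ×ₗ M`. -/
def lexAut (c : ℤ) (σ : ℤ → OAut M) : OAut (ℤ ×ₗ M) where
  f z := toLex ((ofLex z).1 + c, (σ (ofLex z).1).f (ofLex z).2)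
  g z := toLex ((ofLex z).1 - c, (σ ((ofLex z).1 - c)).g (ofLex z).2)
  mono := by
    intro z z' h
    rw [Prod.Lex.le_iff] at h ⊢
    rcases h with h | ⟨h1, h2⟩
    · left
      simpa using h
    · right
      refine ⟨by simp [h1], ?_⟩
      simp only [ofLex_toLex]
      rw [h1]
      exact (σ _).mono h2
  mono' := by
    intro z z' h
    rw [Prod.Lex.le_iff] at h ⊢
    rcases h with h | ⟨h1, h2⟩
    · left
      simpa using h
    · right
      refine ⟨by simp [h1], ?_⟩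
      simp only [ofLex_toLex]
      rw [h1]
      exact (σ _).mono' h2
  gf z := by
    simp only [ofLex_toLex, add_sub_cancel_right, OAut.gf]
    rfl
  fg z := by
    simp only [ofLex_toLex, sub_add_cancel, OAut.fg]
    rfl

theorem lexAut_f (c : ℤ) (σ : ℤ → OAut M) (m : ℤ) (x : M) :
    (lexAut c σ).f (toLex (m, x)) = toLex (m + c, (σ m).f x) := rfl

theorem lexAut_mul (c d : ℤ) (σ τ : ℤ → OAut M) :
    lexAut c σ * lexAut d τ = lexAut (c + d) (fun m => σ (m + d) * τ m) := by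
  apply OAut.ext_f
  intro z
  change toLex (((ofLex z).1 + d) + c, _) = toLex ((ofLex z).1 + (c + d), _)
  congr 2
  ring

theorem lexAut_one : lexAut 0 (fun _ => (1 : OAut M)) = 1 := by
  apply OAut.ext_f
  intro z
  change toLex ((ofLex z).1 + 0, (ofLex z).2) = z
  rw [add_zero]
  rfl

theorem lexAut_le {σ τ : ℤ → OAut M} (h : ∀ m, σ m ≤ τ m) : lexAut 0 σ ≤ lexAut 0 τ := by
  intro z
  rw [Prod.Lex.le_iff]
  right
  exact ⟨rfl, h _ _⟩

theorem lexAut_inf (σ τ : ℤ → OAut M) :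
    lexAut 0 σ ⊓ lexAut 0 τ = lexAut 0 (fun m => σ m ⊓ τ m) := by
  apply le_antisymm
  · intro z
    rw [OAut.inf_f]
    rcases le_total ((σ (ofLex z).1).f (ofLex z).2) ((τ (ofLex z).1).f (ofLex z).2) with h | h
    · refine (min_le_left _ _).trans ?_
      rw [Prod.Lex.le_iff]
      right
      refine ⟨rfl, ?_⟩
      exact le_min le_rfl h
    · refine (min_le_right _ _).trans ?_
      rw [Prod.Lex.le_iff]
      right
      refine ⟨rfl, ?_⟩
      exact le_min h le_rfl
  · exact le_inf (lexAut_le fun m => inf_le_left) (lexAut_le fun m => inf_le_right)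

theorem lexAut_le_of_lt {c d : ℤ} (h : c < d) (σ τ : ℤ → OAut M) : lexAut c σ ≤ lexAut d τ := by
  intro z
  rw [Prod.Lex.le_iff]
  left
  change (ofLex z).1 + c < (ofLex z).1 + d
  omega

theorem one_le_lexAut {c : ℤ} (h : 0 < c) (σ : ℤ → OAut M) : 1 ≤ lexAut c σ := by
  rw [← lexAut_one]; exact lexAut_le_of_lt h _ _

theorem lexAut_pow (σ : ℤ → OAut M) (n : ℕ) :
    lexAut 0 σ ^ n = lexAut 0 (fun m => σ m ^ n) := by
  induction n with
  | zero => simp only [pow_zero]; exact lexAut_one.symm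
  | succ n ih =>
    rw [pow_succ, ih, lexAut_mul]
    simp only [add_zero, pow_succ]

theorem lexAut_zero_inj {σ τ : ℤ → OAut M} (h : lexAut 0 σ = lexAut 0 τ) (m : ℤ) : σ m = τ m := by
  apply OAut.ext_f
  intro x
  have h1 : (lexAut 0 σ).f (toLex (m, x)) = (lexAut 0 τ).f (toLex (m, x)) := by rw [h]
  rw [lexAut_f, lexAut_f] at h1
  exact (Prod.ext_iff.1 (toLex_inj.1 h1)).2

end Lex

/-- The shift of `ℤ`. -/
def shift : OAut ℤ where
  f x := x + 1
  g x := x - 1
  mono := by intro x y h; simpa using h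
  mono' := by intro x y h; simpa using h
  gf x := by ring
  fg x := by ring

theorem one_lt_shift : 1 < shift := by
  refine lt_of_le_of_ne ?_ ?_
  · intro x
    change x ≤ x + 1
    omega
  · intro h
    have : (1 : OAut ℤ).f 0 = shift.f 0 := by rw [← h]
    simp [shift] at this

/-! ### Affine automorphisms of `ℚ` -/

/-- `t ↦ c t + d` with `c > 0`. -/
def aff (c d : ℚ) (hc : 0 < c) : OAut ℚ where
  f t := c * t + d
  g t := (t - d) / c
  mono := by
    intro x y h
    have := mul_le_mul_of_nonneg_left h hc.le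
    simpa using this
  mono' := by
    intro x y h
    exact div_le_div_of_nonneg_right (by linarith) hc.le
  gf t := by field_simp; ring
  fg t := by field_simp; ring

theorem aff_f (c d : ℚ) (hc : 0 < c) (t : ℚ) : (aff c d hc).f t = c * t + d := rfl

theorem aff_g (c d : ℚ) (hc : 0 < c) (t : ℚ) : (aff c d hc).g t = (t - d) / c := rfl

theorem inv_g {Ω : Type} [LinearOrder Ω] (a : OAut Ω) (t : Ω) : (a⁻¹).g t = a.f t := rfl

/-- translation by `3` -/
def yy : OAut ℚ := aff 1 3 (by norm_num)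

/-- `x₁` moves exactly the negative numbers -/
def xx₁ : OAut ℚ := 1 ⊔ (aff 1 3 (by norm_num) ⊓ aff (1 / 4) 0 (by norm_num))

/-- `x₂` moves exactly the numbers above `-1` -/
def xx₂ : OAut ℚ := 1 ⊔ aff 4 3 (by norm_num)

theorem one_le_yy : 1 ≤ yy := by
  intro t
  simp only [OAut.one_f, yy, aff_f]
  linarith

theorem yy_le : yy ≤ xx₂ * xx₁ := by
  intro t
  simp only [yy, xx₁, xx₂, OAut.mul_f, OAut.sup_f, OAut.inf_f, OAut.one_f, aff_f]
  rcases le_total (1 * t + 3) (1 / 4 * t + 0) with h1 | h1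
  · rw [min_eq_left h1]
    refine le_trans ?_ (le_max_left _ _)
    exact le_max_right _ _
  · rw [min_eq_right h1]
    refine le_trans ?_ (le_max_right _ _)
    have h2 : 1 / 4 * t + 0 ≤ max t (1 / 4 * t + 0) := le_max_right _ _
    linarith

/-! ### The groups for the first question -/

instance prodMulLeftMono {G H : Type} [Group G] [Lattice G] [MulLeftMono G] [Group H] [Lattice H]
    [MulLeftMono H] : MulLeftMono (G × H) :=
  ⟨fun _ _ _ h => ⟨mul_le_mul_right h.1 _, mul_le_mul_right h.2 _⟩⟩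

instance prodMulRightMono {G H : Type} [Group G] [Lattice G] [MulRightMono G] [Group H]
    [Lattice H] [MulRightMono H] : MulRightMono (G × H) :=
  ⟨fun _ _ _ h => ⟨mul_le_mul_left h.1 _, mul_le_mul_left h.2 _⟩⟩

/-- the first group for `ℤ + ℤ` -/
abbrev B₁ : Type := Multiplicative ℤ × OAut (ℤ ×ₗ ℤ)

/-- the identity on even rows, the shift on odd rows -/
def σa : ℤ → OAut ℤ := fun m => if Even m then 1 else shift

/-- the shift on even rows, the identity on odd rows -/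
def σb : ℤ → OAut ℤ := fun m => if Even m then shift else 1

/-- the identity on each row -/
def σ₁ : ℤ → OAut ℤ := fun _ => 1

/-- `a` in `B₁` -/
def aB : B₁ := (Multiplicative.ofAdd 1, lexAut 0 σa)

/-- `b` in `B₁` -/
def bB : B₁ := (1, lexAut 0 σb)

/-- `α₁` in `B₁` -/
def αB : B₁ := (Multiplicative.ofAdd 1, 1)

/-- `h` in `B₁` -/
def hB : B₁ := (1, lexAut 2 σ₁)

/-- `k` in `B₁` -/
def kB : B₁ := (1, lexAut 1 σ₁)

theorem one_lt_ofAdd : (1 : Multiplicative ℤ) < Multiplicative.ofAdd 1 := by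
  change (0 : ℤ) < 1
  norm_num

theorem lexAut_σ₁ : lexAut 0 σ₁ = 1 := lexAut_one

theorem aB_inf_bB : aB ⊓ bB = 1 := by
  refine Prod.ext ?_ ?_
  · exact inf_eq_right.2 one_lt_ofAdd.le
  · change lexAut 0 σa ⊓ lexAut 0 σb = 1
    rw [lexAut_inf, ← lexAut_σ₁]
    congr 1
    funext m
    by_cases hm : Even m
    · simp only [σa, σb, σ₁, if_pos hm]
      exact inf_eq_left.2 one_lt_shift.le
    · simp only [σa, σb, σ₁, if_neg hm]
      exact inf_eq_right.2 one_lt_shift.le

theorem one_lt_αB : 1 < αB := by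
  refine lt_of_le_of_ne ⟨one_lt_ofAdd.le, le_rfl⟩ ?_
  intro h
  exact one_lt_ofAdd.ne (congrArg Prod.fst h)

theorem αB_le_aB : αB ≤ aB := by
  refine ⟨le_rfl, ?_⟩
  change (1 : OAut (ℤ ×ₗ ℤ)) ≤ lexAut 0 σa
  rw [← lexAut_σ₁]
  apply lexAut_le
  intro m
  by_cases hm : Even m
  · simp only [σa, σ₁, if_pos hm]; exact le_rfl
  · simp only [σa, σ₁, if_neg hm]; exact one_lt_shift.le

theorem one_lt_aB : 1 < aB := one_lt_αB.trans_le αB_le_aB

theorem one_lt_bB : 1 < bB := by
  refine lt_of_le_of_ne (one_le_of_orth (orth_comm aB_inf_bB)) ?_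
  intro h
  have h1 : (1 : OAut (ℤ ×ₗ ℤ)) = lexAut 0 σb := congrArg Prod.snd h
  rw [← lexAut_σ₁] at h1
  have h2 := lexAut_zero_inj h1 0
  simp only [σb, σ₁, Even.zero, if_true] at h2
  exact one_lt_shift.ne h2

theorem hB_inf_αB : hB ⊓ αB = 1 := by
  refine Prod.ext ?_ ?_
  · exact inf_eq_left.2 one_lt_ofAdd.le
  · exact inf_eq_right.2 (one_le_lexAut (c := 2) (by norm_num) σ₁)

theorem hB_comm : hB * bB = bB * hB := by
  refine Prod.ext rfl ?_
  change lexAut 2 σ₁ * lexAut 0 σb = lexAut 0 σb * lexAut 2 σ₁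
  rw [lexAut_mul, lexAut_mul]
  congr 1
  funext m
  have : Even (m + 2) ↔ Even m := by simp [Int.even_add]
  simp only [σb, σ₁, this, one_mul, mul_one]

theorem one_le_kB : 1 ≤ kB := ⟨le_rfl, one_le_lexAut (c := 1) (by norm_num) σ₁⟩

theorem kB_le_hB : kB ≤ hB := ⟨le_rfl, lexAut_le_of_lt (c := 1) (d := 2) (by norm_num) σ₁ σ₁⟩

theorem kB_conj : kB * bB * kB⁻¹ ≤ aB := by
  rw [mul_inv_le_iff_le_mul]
  refine ⟨?_, ?_⟩
  · change (1 : Multiplicative ℤ) * 1 ≤ Multiplicative.ofAdd 1 * 1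
    rw [mul_one, mul_one]; exact one_lt_ofAdd.le
  · change lexAut 1 σ₁ * lexAut 0 σb ≤ lexAut 0 σa * lexAut 1 σ₁
    rw [lexAut_mul, lexAut_mul]
    apply le_of_eq
    congr 1
    funext m
    have : Even (m + 1) ↔ ¬ Even m := by simp [Int.even_add]
    simp only [σa, σb, σ₁, this, one_mul, mul_one]
    by_cases hm : Even m <;> simp [hm]

/-- `a` in `Aut(ℚ)`: a bump on `(-2, -1)` -/
def aC : OAut ℚ := 1 ⊔ (aff 2 2 (by norm_num) ⊓ aff (1 / 2) (-1 / 2) (by norm_num))

/-- `b` in `Aut(ℚ)`: a bump on `(1, 2)` -/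
def bC : OAut ℚ := yy * aC * yy⁻¹

theorem aC_f (t : ℚ) : aC.f t = max t (min (2 * t + 2) (1 / 2 * t + -1 / 2)) := rfl

theorem bC_f (t : ℚ) : bC.f t = 1 * aC.f ((t - 3) / 1) + 3 := rfl

theorem aC_inf_bC : aC ⊓ bC = 1 := by
  apply OAut.ext_f
  intro t
  rw [OAut.inf_f, OAut.one_f, bC_f, aC_f, aC_f]
  rcases le_total t (-1) with ht | ht
  · have h1 : min (2 * ((t - 3) / 1) + 2) (1 / 2 * ((t - 3) / 1) + -1 / 2) ≤ (t - 3) / 1 :=
      (min_le_left _ _).trans (by linarith)
    rw [max_eq_left h1]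
    have h2 := le_max_left t (min (2 * t + 2) (1 / 2 * t + -1 / 2))
    rw [min_eq_right (by linarith)]
    ring
  · have h1 : min (2 * t + 2) (1 / 2 * t + -1 / 2) ≤ t :=
      (min_le_right _ _).trans (by linarith)
    rw [max_eq_left h1]
    have h2 := le_max_left ((t - 3) / 1)
      (min (2 * ((t - 3) / 1) + 2) (1 / 2 * ((t - 3) / 1) + -1 / 2))
    rw [min_eq_left (by linarith)]

theorem one_lt_aC : 1 < aC := by
  refine lt_of_le_of_ne le_sup_left ?_
  intro h
  have h1 : (1 : OAut ℚ).f (-3 / 2) = aC.f (-3 / 2) := by rw [← h]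
  rw [aC_f, OAut.one_f] at h1
  norm_num at h1

theorem one_lt_bC : 1 < bC := by
  refine lt_of_le_of_ne (one_le_of_orth (orth_comm aC_inf_bC)) ?_
  intro h
  have h1 : (1 : OAut ℚ).f (3 / 2) = bC.f (3 / 2) := by rw [← h]
  rw [bC_f, aC_f, OAut.one_f] at h1
  norm_num at h1

theorem xx₁_inf_bC : xx₁ ⊓ bC = 1 := by
  apply OAut.ext_f
  intro t
  rw [OAut.inf_f, OAut.one_f, bC_f, aC_f]
  simp only [xx₁, OAut.sup_f, OAut.inf_f, OAut.one_f, aff_f]
  rcases le_total t 0 with ht | ht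
  · have h1 : min (2 * ((t - 3) / 1) + 2) (1 / 2 * ((t - 3) / 1) + -1 / 2) ≤ (t - 3) / 1 :=
      (min_le_left _ _).trans (by linarith)
    rw [max_eq_left h1]
    have h2 := le_max_left t (min (1 * t + 3) (1 / 4 * t + 0))
    rw [min_eq_right (by linarith)]
    ring
  · have h1 : min (1 * t + 3) (1 / 4 * t + 0) ≤ t :=
      (min_le_right _ _).trans (by linarith)
    rw [max_eq_left h1]
    have h2 := le_max_left ((t - 3) / 1)
      (min (2 * ((t - 3) / 1) + 2) (1 / 2 * ((t - 3) / 1) + -1 / 2))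
    rw [min_eq_left (by linarith)]

theorem xx₂_inf_aC : xx₂ ⊓ aC = 1 := by
  apply OAut.ext_f
  intro t
  rw [OAut.inf_f, OAut.one_f, aC_f]
  simp only [xx₂, OAut.sup_f, OAut.one_f, aff_f]
  rcases le_total t (-1) with ht | ht
  · have h1 : 4 * t + 3 ≤ t := by linarith
    rw [max_eq_left h1]
    have h2 := le_max_left t (min (2 * t + 2) (1 / 2 * t + -1 / 2))
    rw [min_eq_left h2]
  · have h1 : min (2 * t + 2) (1 / 2 * t + -1 / 2) ≤ t :=
      (min_le_right _ _).trans (by linarith)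
    rw [max_eq_left h1]
    rw [min_eq_right (le_max_left _ _)]

end Pool.Agent.Work.MP_d8fac8_al
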