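import Pool.Agent.Work.MP_d8fac8_al.Groups

set_option autoImplicit false

/-!
# Elements for the second question
-/

namespace Pool.Agent.Work.MP_d8fac8_al

universe u v w

/-! ### General facts -/

section General2

variable {D : Type u} [Group D] [Lattice D] [MulLeftMono D] [MulRightMono D]

theorem inf_mul_le {x y z : D} (hx : 1 ≤ x) (hy : 1 ≤ y) (hz : 1 ≤ z) :
    x ⊓ (y * z) ≤ (x ⊓ y) * (x ⊓ z) := by
  rw [inf_mul, mul_inf, mul_inf]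
  refine le_inf (le_inf ?_ ?_) (le_inf ?_ inf_le_right)
  · exact inf_le_left.trans (le_mul_of_one_le_left' hx)
  · exact inf_le_left.trans (le_mul_of_one_le_right' hz)
  · exact inf_le_left.trans (le_mul_of_one_le_left' hy)

/-- If `b = b₁ b₂` with `b₁ ⊥ b₂`, `b₁ ⊥ a` and `1 ≤ g ≤ b`, then `b₁ ⊥ g a g⁻¹`. -/
theorem orth_conj_of_le {b₁ b₂ a g : D} (h12 : b₁ ⊓ b₂ = 1) (ha : b₁ ⊓ a = 1) (hg : 1 ≤ g)
    (hgb : g ≤ b₁ * b₂) : b₁ ⊓ (g * a * g⁻¹) = 1 := by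
  have hb1 : 1 ≤ b₁ := one_le_of_orth h12
  have hb2 : 1 ≤ b₂ := one_le_of_orth (orth_comm h12)
  have ha1 : 1 ≤ a := one_le_of_orth (orth_comm ha)
  -- decomposition `g = u v`
  set u := g ⊓ b₁ with hu
  set v := u⁻¹ * g with hv
  have huv : g = u * v := by rw [hv]; group
  have hu1 : 1 ≤ u := le_inf hg hb1
  have hv' : v = 1 ⊔ b₁⁻¹ * g := by
    rw [hv, hu, inv_inf, sup_mul]; simp
  have hv1 : 1 ≤ v := by rw [hv']; exact le_sup_left
  have hvb : v ≤ b₂ := by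
    rw [hv']
    refine sup_le hb2 ?_
    have := mul_le_mul_right hgb b₁⁻¹
    simpa using this
  have hvb1 : v ⊓ b₁ = 1 := orth_mono (orth_comm h12) hvb le_rfl hv1 hb1
  -- `w = u⁻¹ b₁ u`
  set w := u⁻¹ * b₁ * u with hw
  have hw1 : 1 ≤ w := by
    have := mul_le_mul_left (mul_le_mul_right hb1 u⁻¹) u
    simpa [hw] using this
  have hwb : w ≤ b₁ * b₁ := by
    have h1 : u⁻¹ * b₁ ≤ b₁ := mul_le_of_le_one_left' (Left.inv_le_one_iff.2 hu1)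
    exact mul_le_mul' h1 inf_le_right
  have hbb : b₁ * b₁ ⊓ v = 1 := orth_mul (orth_comm hvb1) (orth_comm hvb1)
  have hwv : w ⊓ v = 1 := orth_mono hbb hwb le_rfl hw1 hv1
  have hbba : b₁ * b₁ ⊓ a = 1 := orth_mul ha ha
  have hwa : w ⊓ a = 1 := orth_mono hbba hwb le_rfl hw1 ha1
  have e1 : g⁻¹ * b₁ * g = w := by
    have : g⁻¹ * b₁ * g = v⁻¹ * (u⁻¹ * b₁ * u) * v := by rw [huv]; group
    rw [this, ← hw, mul_assoc, orth_commute hwv]; group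
  have h2 := orth_conj hwa g⁻¹
  rw [← e1] at h2
  have e2 : (g⁻¹)⁻¹ * (g⁻¹ * b₁ * g) * g⁻¹ = b₁ := by group
  have e3 : (g⁻¹)⁻¹ * a * g⁻¹ = g * a * g⁻¹ := by group
  rwa [e2, e3] at h2

/-- Comparison of the decompositions. -/
theorem le_of_decomp {b₁ b₂ c₁ c₂ a g : D} (hb : b₁ * b₂ = c₁ * c₂) (h12 : b₁ ⊓ b₂ = 1)
    (ha : b₁ ⊓ a = 1) (hc : c₁ ⊓ c₂ = 1) (hg : 1 ≤ g) (hgb : g ≤ c₁ * c₂)
    (hcert : c₂ ≤ (a * (g * a * g⁻¹)) * (a * (g * a * g⁻¹))) : b₁ ≤ c₁ := by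
  have hb1 : 1 ≤ b₁ := one_le_of_orth h12
  have hb2 : 1 ≤ b₂ := one_le_of_orth (orth_comm h12)
  have hc1 : 1 ≤ c₁ := one_le_of_orth hc
  have hc2 : 1 ≤ c₂ := one_le_of_orth (orth_comm hc)
  have h1 : b₁ ⊓ (g * a * g⁻¹) = 1 := orth_conj_of_le h12 ha hg (by rw [hb]; exact hgb)
  have h2 : (a * (g * a * g⁻¹)) ⊓ b₁ = 1 := orth_mul (orth_comm ha) (orth_comm h1)
  have h3 : (a * (g * a * g⁻¹)) * (a * (g * a * g⁻¹)) ⊓ b₁ = 1 := orth_mul h2 h2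
  have h4 : b₁ ⊓ c₂ = 1 := orth_mono (orth_comm h3) le_rfl hcert hb1 hc2
  have h5 : b₁ ≤ c₁ * c₂ := by rw [← hb]; exact le_mul_of_one_le_right' hb2
  calc b₁ = b₁ ⊓ (c₁ * c₂) := (inf_eq_left.2 h5).symm
    _ ≤ (b₁ ⊓ c₁) * (b₁ ⊓ c₂) := inf_mul_le hb1 hc1 hc2
    _ = b₁ ⊓ c₁ := by rw [h4, mul_one]
    _ ≤ c₁ := inf_le_right

end General2

/-! ### The first group -/

/-- the first group for `ℤ ×ₗ ℤ` -/
abbrev B₂ : Type := Multiplicative ℤ × OAut (ℤ ×ₗ (ℤ ×ₗ ℤ))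

/-- the shift `(n, l) ↦ (n + 1, l)` -/
def SS : OAut (ℤ ×ₗ ℤ) := lexAut 1 (fun _ => 1)

/-- the shift `(n, l) ↦ (n, l + 1)` -/
def TT : OAut (ℤ ×ₗ ℤ) := lexAut 0 (fun _ => shift)

theorem one_le_SS : 1 ≤ SS := one_le_lexAut (c := 1) (by norm_num) _

theorem one_lt_TT : 1 < TT := by
  have h1 : (1 : OAut (ℤ ×ₗ ℤ)) ≤ TT := by
    rw [← lexAut_one]
    exact lexAut_le fun _ => one_lt_shift.le
  refine lt_of_le_of_ne h1 ?_
  intro h
  rw [← lexAut_one] at h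
  exact one_lt_shift.ne (lexAut_zero_inj h 0)

theorem TT_pow_le (n : ℕ) : TT ^ n ≤ SS := by
  rw [TT, lexAut_pow]
  exact lexAut_le_of_lt (c := 0) (d := 1) (by norm_num) _ _

theorem TT_comm : SS * TT = TT * SS := by
  rw [SS, TT, lexAut_mul, lexAut_mul]
  simp

/-- `T` on even rows -/
def τa : ℤ → OAut (ℤ ×ₗ ℤ) := fun m => if Even m then TT else 1

/-- `S` on odd rows -/
def τ₁ : ℤ → OAut (ℤ ×ₗ ℤ) := fun m => if Even m then 1 else SS

/-- `S` on even rows -/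
def τ₂ : ℤ → OAut (ℤ ×ₗ ℤ) := fun m => if Even m then SS else 1

/-- identity on each row -/
def τi : ℤ → OAut (ℤ ×ₗ ℤ) := fun _ => 1

theorem lexAut_τi : lexAut 0 τi = 1 := lexAut_one

/-- `a` in `B₂` -/
def a2 : B₂ := (1, lexAut 0 τa)

/-- `b₁` in `B₂` -/
def b21 : B₂ := (Multiplicative.ofAdd 1, lexAut 0 τ₁)

/-- `b₂` in `B₂` -/
def b22 : B₂ := (1, lexAut 0 τ₂)

/-- `α₁` in `B₂` -/
def α2 : B₂ := (Multiplicative.ofAdd 1, 1)

/-- `h` in `B₂` -/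
def h2 : B₂ := (1, lexAut 2 τi)

/-- `k` in `B₂` -/
def k2 : B₂ := (1, lexAut 1 τi)

theorem one_le_τ₁ (m : ℤ) : 1 ≤ τ₁ m := by
  by_cases hm : Even m
  · simp only [τ₁, if_pos hm]; exact le_rfl
  · simp only [τ₁, if_neg hm]; exact one_le_SS

theorem one_le_τ₂ (m : ℤ) : 1 ≤ τ₂ m := by
  by_cases hm : Even m
  · simp only [τ₂, if_pos hm]; exact one_le_SS
  · simp only [τ₂, if_neg hm]; exact le_rfl

theorem one_le_τa (m : ℤ) : 1 ≤ τa m := by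
  by_cases hm : Even m
  · simp only [τa, if_pos hm]; exact one_lt_TT.le
  · simp only [τa, if_neg hm]; exact le_rfl

theorem one_lt_a2 : 1 < a2 := by
  refine lt_of_le_of_ne ⟨le_rfl, ?_⟩ ?_
  · change (1 : OAut (ℤ ×ₗ (ℤ ×ₗ ℤ))) ≤ lexAut 0 τa
    rw [← lexAut_τi]
    exact lexAut_le one_le_τa
  · intro h
    have h1 : (1 : OAut (ℤ ×ₗ (ℤ ×ₗ ℤ))) = lexAut 0 τa := congrArg Prod.snd h
    rw [← lexAut_τi] at h1
    have h2 := lexAut_zero_inj h1 0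
    simp only [τa, τi, Even.zero, if_true] at h2
    exact one_lt_TT.ne h2

theorem b21_inf_b22 : b21 ⊓ b22 = 1 := by
  refine Prod.ext ?_ ?_
  · exact inf_eq_right.2 one_lt_ofAdd.le
  · change lexAut 0 τ₁ ⊓ lexAut 0 τ₂ = 1
    rw [lexAut_inf, ← lexAut_τi]
    congr 1
    funext m
    by_cases hm : Even m
    · simp only [τ₁, τ₂, τi, if_pos hm]
      exact inf_eq_left.2 one_le_SS
    · simp only [τ₁, τ₂, τi, if_neg hm]
      exact inf_eq_right.2 one_le_SS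

theorem b21_inf_a2 : b21 ⊓ a2 = 1 := by
  refine Prod.ext ?_ ?_
  · exact inf_eq_right.2 one_lt_ofAdd.le
  · change lexAut 0 τ₁ ⊓ lexAut 0 τa = 1
    rw [lexAut_inf, ← lexAut_τi]
    congr 1
    funext m
    by_cases hm : Even m
    · simp only [τ₁, τa, τi, if_pos hm]
      exact inf_eq_left.2 one_lt_TT.le
    · simp only [τ₁, τa, τi, if_neg hm]
      exact inf_eq_right.2 one_le_SS

theorem a2_pow_le (n : ℕ) : a2 ^ n ≤ b21 * b22 := by
  refine ⟨?_, ?_⟩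
  · change (1 : Multiplicative ℤ) ^ n ≤ Multiplicative.ofAdd 1 * 1
    rw [one_pow, mul_one]; exact one_lt_ofAdd.le
  · change (lexAut 0 τa) ^ n ≤ lexAut 0 τ₁ * lexAut 0 τ₂
    rw [lexAut_pow, lexAut_mul]
    refine lexAut_le (fun m => ?_)
    rw [add_zero]
    by_cases hm : Even m
    · simp only [τ₁, τ₂, τa, if_pos hm, one_mul]
      exact TT_pow_le n
    · simp only [τ₁, τ₂, τa, if_neg hm, one_pow, mul_one]
      exact one_le_SS

theorem b2_comm : (b21 * b22) * a2 = a2 * (b21 * b22) := by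
  refine Prod.ext ?_ ?_
  · exact mul_comm _ _
  · change lexAut 0 τ₁ * lexAut 0 τ₂ * lexAut 0 τa = lexAut 0 τa * (lexAut 0 τ₁ * lexAut 0 τ₂)
    rw [lexAut_mul, lexAut_mul, lexAut_mul]
    congr 1
    funext m
    simp only [add_zero]
    by_cases hm : Even m
    · simp only [τ₁, τ₂, τa, if_pos hm, one_mul]
      exact TT_comm
    · simp only [τ₁, τ₂, τa, if_neg hm, one_mul, mul_one]

theorem one_lt_α2 : 1 < α2 := by
  refine lt_of_le_of_ne ⟨one_lt_ofAdd.le, le_rfl⟩ ?_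
  intro h
  exact one_lt_ofAdd.ne (congrArg Prod.fst h)

theorem α2_le_b21 : α2 ≤ b21 := by
  refine ⟨le_rfl, ?_⟩
  change (1 : OAut (ℤ ×ₗ (ℤ ×ₗ ℤ))) ≤ lexAut 0 τ₁
  rw [← lexAut_τi]
  exact lexAut_le one_le_τ₁

theorem h2_inf_α2 : h2 ⊓ α2 = 1 := by
  refine Prod.ext ?_ ?_
  · exact inf_eq_left.2 one_lt_ofAdd.le
  · exact inf_eq_right.2 (one_le_lexAut (c := 2) (by norm_num) τi)

theorem h2_comm : h2 * a2 = a2 * h2 := by
  refine Prod.ext rfl ?_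
  change lexAut 2 τi * lexAut 0 τa = lexAut 0 τa * lexAut 2 τi
  rw [lexAut_mul, lexAut_mul]
  congr 1
  funext m
  have : Even (m + 2) ↔ Even m := by simp [Int.even_add]
  simp only [τa, τi, this, one_mul, mul_one]

theorem one_le_k2 : 1 ≤ k2 := ⟨le_rfl, one_le_lexAut (c := 1) (by norm_num) τi⟩

theorem k2_le_h2 : k2 ≤ h2 := ⟨le_rfl, lexAut_le_of_lt (c := 1) (d := 2) (by norm_num) τi τi⟩

theorem k2_conj : k2 * a2 * k2⁻¹ ≤ b21 := by
  rw [mul_inv_le_iff_le_mul]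
  refine ⟨?_, ?_⟩
  · change (1 : Multiplicative ℤ) * 1 ≤ Multiplicative.ofAdd 1 * 1
    rw [mul_one, mul_one]; exact one_lt_ofAdd.le
  · change lexAut 1 τi * lexAut 0 τa ≤ lexAut 0 τ₁ * lexAut 1 τi
    rw [lexAut_mul, lexAut_mul]
    intro z
    rw [Prod.Lex.le_iff]
    right
    refine ⟨rfl, ?_⟩
    revert z
    have key : ∀ m : ℤ, (τi (m + 0) * τa m) ≤ (τ₁ (m + 1) * τi m) := by
      intro m
      have : Even (m + 1) ↔ ¬ Even m := by simp [Int.even_add]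
      simp only [τa, τ₁, τi, this, one_mul, mul_one]
      by_cases hm : Even m
      · simp only [hm, not_true, if_false, if_true]
        simpa using TT_pow_le 1
      · simp [hm]
    intro z
    exact key _ _

end Pool.Agent.Work.MP_d8fac8_al
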