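import Pool.Agent.Work.MP_d8fac8_al.Groups2

set_option autoImplicit false

/-!
# A multiplicatively periodic automorphism of `ℚ`
-/

namespace Pool.Agent.Work.MP_d8fac8_al

/-- the largest power of two below `t` (for `t > 0`) -/
def lam (t : ℚ) : ℚ := ((2 : ℕ) : ℚ) ^ (Int.log 2 t)

theorem lam_pos (t : ℚ) : 0 < lam t := by
  unfold lam; positivity

theorem lam_le {t : ℚ} (ht : 0 < t) : lam t ≤ t := Int.zpow_log_le_self (by norm_num) ht

theorem lt_lam (t : ℚ) : t < 2 * lam t := by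
  have h := Int.lt_zpow_succ_log_self (b := 2) (by norm_num) t
  rw [zpow_add_one₀ (by norm_num)] at h
  unfold lam
  push_cast at h ⊢
  linarith

theorem lam_eq {n : ℤ} {t : ℚ} (h1 : ((2 : ℕ) : ℚ) ^ n ≤ t) (h2 : t < 2 * ((2 : ℕ) : ℚ) ^ n) :
    lam t = ((2 : ℕ) : ℚ) ^ n := by
  have ht : 0 < t := lt_of_lt_of_le (by positivity) h1
  have h3 : n ≤ Int.log 2 t := (Int.zpow_le_iff_le_log (by norm_num) ht).1 h1
  have h4 : Int.log 2 t < n + 1 := by
    refine (Int.lt_zpow_iff_log_lt (by norm_num) ht).1 ?_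
    rw [zpow_add_one₀ (by norm_num)]
    push_cast at h2 ⊢
    linarith
  have h5 : Int.log 2 t = n := by omega
  unfold lam
  rw [h5]

theorem lam_eq_lam {s t : ℚ} (h1 : lam s ≤ t) (h2 : t < 2 * lam s) : lam t = lam s :=
  lam_eq h1 h2

theorem lam_lam (t : ℚ) : lam (lam t) = lam t :=
  lam_eq_lam le_rfl (by have := lam_pos t; linarith)

theorem lam_two_mul {t : ℚ} (ht : 0 < t) : lam (2 * t) = 2 * lam t := by
  have h : 2 * lam t = ((2 : ℕ) : ℚ) ^ (Int.log 2 t + 1) := by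
    rw [zpow_add_one₀ (by norm_num)]
    unfold lam
    push_cast
    ring
  rw [h]
  apply lam_eq
  · rw [← h]; linarith [lam_le ht]
  · rw [← h]; linarith [lt_lam t]

theorem lam_half {t : ℚ} (ht : 0 < t) : lam (t / 2) = lam t / 2 := by
  have h1 : 0 < t / 2 := by linarith
  have h2 := lam_two_mul h1
  have h3 : 2 * (t / 2) = t := by ring
  rw [h3] at h2
  linarith

theorem lam_mono {s t : ℚ} (hs : 0 < s) (h : s ≤ t) : lam s ≤ lam t := by
  unfold lam
  exact zpow_le_zpow_right₀ (by norm_num) (Int.log_mono_right hs h)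

/-- different dyadic blocks -/
theorem lam_lt {s t : ℚ} (h : lam s < lam t) : 2 * lam s ≤ lam t := by
  unfold lam at h ⊢
  have h1 : Int.log 2 s < Int.log 2 t := (zpow_lt_zpow_iff_right₀ (by norm_num)).1 h
  have h2 : ((2 : ℕ) : ℚ) ^ (Int.log 2 s + 1) ≤ ((2 : ℕ) : ℚ) ^ (Int.log 2 t) :=
    zpow_le_zpow_right₀ (by norm_num) (by omega)
  rw [zpow_add_one₀ (by norm_num)] at h2
  push_cast at h2 ⊢
  linarith

/-- the map `a` -/
def aF (t : ℚ) : ℚ := if 0 < t then min (8 * t - 7 * lam t) (7 / 4 * lam t + t / 8) else t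

/-- its inverse -/
def aG (t : ℚ) : ℚ := if 0 < t then max ((t + 7 * lam t) / 8) (8 * t - 14 * lam t) else t

theorem aF_pos {t : ℚ} (ht : 0 < t) :
    aF t = min (8 * t - 7 * lam t) (7 / 4 * lam t + t / 8) := if_pos ht

theorem aG_pos {t : ℚ} (ht : 0 < t) :
    aG t = max ((t + 7 * lam t) / 8) (8 * t - 14 * lam t) := if_pos ht

theorem aF_nonpos {t : ℚ} (ht : t ≤ 0) : aF t = t := if_neg (not_lt.2 ht)

theorem aG_nonpos {t : ℚ} (ht : t ≤ 0) : aG t = t := if_neg (not_lt.2 ht)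

theorem le_aF {t : ℚ} : t ≤ aF t := by
  rcases le_or_gt t 0 with ht | ht
  · rw [aF_nonpos ht]
  · rw [aF_pos ht]
    have h1 := lam_le ht
    have h2 := lt_lam t
    exact le_min (by linarith) (by linarith)

theorem aF_lt {t : ℚ} (ht : 0 < t) : aF t < 2 * lam t := by
  rw [aF_pos ht]
  refine (min_le_right _ _).trans_lt ?_
  linarith [lt_lam t]

theorem lam_aF {t : ℚ} (ht : 0 < t) : lam (aF t) = lam t :=
  lam_eq_lam ((lam_le ht).trans le_aF) (aF_lt ht)

theorem lam_le_aG {t : ℚ} (ht : 0 < t) : lam t ≤ aG t := by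
  rw [aG_pos ht]
  refine le_trans ?_ (le_max_left _ _)
  linarith [lam_le ht]

theorem aG_lt {t : ℚ} (ht : 0 < t) : aG t < 2 * lam t := by
  rw [aG_pos ht]
  have := lt_lam t
  have := lam_pos t
  exact max_lt (by linarith) (by linarith)

theorem lam_aG {t : ℚ} (ht : 0 < t) : lam (aG t) = lam t :=
  lam_eq_lam (lam_le_aG ht) (aG_lt ht)

theorem aF_mono : Monotone aF := by
  intro s t h
  rcases le_or_gt s 0 with hs | hs
  · rw [aF_nonpos hs]
    exact h.trans le_aF
  · have ht : 0 < t := hs.trans_le h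
    rcases (lam_mono hs h).eq_or_lt with h1 | h1
    · rw [aF_pos hs, aF_pos ht, h1]
      exact min_le_min (by linarith) (by linarith)
    · have h2 := lam_lt h1
      exact (aF_lt hs).le.trans (h2.trans ((lam_le ht).trans le_aF))

theorem aG_mono : Monotone aG := by
  intro s t h
  rcases le_or_gt s 0 with hs | hs
  · rw [aG_nonpos hs]
    rcases le_or_gt t 0 with ht | ht
    · rw [aG_nonpos ht]; exact h
    · exact hs.trans ((lam_pos t).le.trans (lam_le_aG ht))
  · have ht : 0 < t := hs.trans_le h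
    rcases (lam_mono hs h).eq_or_lt with h1 | h1
    · rw [aG_pos hs, aG_pos ht, h1]
      exact max_le_max (by linarith) (by linarith)
    · have h2 := lam_lt h1
      exact (aG_lt hs).le.trans (h2.trans (lam_le_aG ht))

/-- the automorphism `a` of `ℚ` -/
def aQ : OAut ℚ where
  f := aF
  g := aG
  mono := aF_mono
  mono' := aG_mono
  gf t := by
    rcases le_or_gt t 0 with ht | ht
    · rw [aF_nonpos ht, aG_nonpos ht]
    · have h0 : 0 < aF t := ht.trans_le le_aF
      rw [aG_pos h0, lam_aF ht, aF_pos ht]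
      rcases le_total (8 * t - 7 * lam t) (7 / 4 * lam t + t / 8) with h | h
      · rw [min_eq_left h, max_eq_left (by linarith)]; ring
      · rw [min_eq_right h, max_eq_right (by linarith)]; ring
  fg t := by
    rcases le_or_gt t 0 with ht | ht
    · rw [aG_nonpos ht, aF_nonpos ht]
    · have h0 : 0 < aG t := (lam_pos t).trans_le (lam_le_aG ht)
      rw [aF_pos h0, lam_aG ht, aG_pos ht]
      rcases le_total ((t + 7 * lam t) / 8) (8 * t - 14 * lam t) with h | h
      · rw [max_eq_right h, min_eq_right (by linarith)]; ring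
      · rw [max_eq_left h, min_eq_left (by linarith)]; ring

theorem aQ_f (t : ℚ) : aQ.f t = aF t := rfl

theorem one_lt_aQ : 1 < aQ := by
  refine lt_of_le_of_ne (fun t => le_aF) ?_
  intro h
  have h1 : (1 : OAut ℚ).f (3 / 2) = aQ.f (3 / 2) := by rw [← h]
  have h2 : lam (3 / 2) = 1 := by
    have := lam_eq (n := 0) (t := 3 / 2) (by norm_num) (by norm_num)
    simpa using this
  rw [aQ_f, aF_pos (by norm_num), h2, OAut.one_f] at h1
  norm_num at h1

/-- `b₂`: multiplication by two on the positive numbers -/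
def b2Q : OAut ℚ := 1 ⊔ aff 2 0 (by norm_num)

/-- `g`: multiplication by `3/2` on the positive numbers -/
def gQ : OAut ℚ := 1 ⊔ aff (3 / 2) 0 (by norm_num)

theorem b2Q_f (t : ℚ) : b2Q.f t = max t (2 * t + 0) := rfl

theorem gQ_f (t : ℚ) : gQ.f t = max t (3 / 2 * t + 0) := rfl

theorem gQ_g (t : ℚ) : (gQ⁻¹).f t = min t ((t - 0) / (3 / 2)) := rfl

/-- the bump on `(1, 2)` -/
def cQ : OAut ℚ := 1 ⊔ (aff 8 (-7) (by norm_num) ⊓ aff (1 / 8) (7 / 4) (by norm_num))

theorem cQ_f (t : ℚ) : cQ.f t = max t (min (8 * t + -7) (1 / 8 * t + 7 / 4)) := rfl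

theorem cQ_le_aQ : cQ ≤ aQ := by
  intro t
  rw [cQ_f, aQ_f]
  refine max_le le_aF ?_
  rcases lt_or_ge t 1 with h | h
  · refine le_trans ?_ (le_aF (t := t))
    exact (min_le_left _ _).trans (by linarith)
  rcases le_or_gt 2 t with h' | h'
  · refine le_trans ?_ (le_aF (t := t))
    exact (min_le_right _ _).trans (by linarith)
  · have h2 : lam t = 1 := by
      have := lam_eq (n := 0) (t := t) (by simpa using h) (by simpa using h')
      simpa using this
    rw [aF_pos (by linarith), h2]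
    exact min_le_min (by linarith) (by linarith)

/-- `b₁`: the translate of `c` to `(-2, -1)` -/
def b1Q : OAut ℚ := yy⁻¹ * cQ * yy

theorem b1Q_f (t : ℚ) : b1Q.f t = (cQ.f (1 * t + 3) - 3) / 1 := rfl

theorem b1Q_f_of_neg {t : ℚ} (ht : t ≤ -2) : b1Q.f t = t := by
  rw [b1Q_f, cQ_f, max_eq_left]
  · ring
  · exact (min_le_left _ _).trans (by linarith)

theorem b1Q_f_of_pos {t : ℚ} (ht : -1 ≤ t) : b1Q.f t = t := by
  rw [b1Q_f, cQ_f, max_eq_left]
  · ring
  · exact (min_le_right _ _).trans (by linarith)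

theorem one_le_b1Q : 1 ≤ b1Q := by
  intro t
  rw [OAut.one_f, b1Q_f, cQ_f]
  have := le_max_left (1 * t + 3) (min (8 * (1 * t + 3) + -7) (1 / 8 * (1 * t + 3) + 7 / 4))
  linarith

theorem one_le_b2Q : 1 ≤ b2Q := le_sup_left

/-- orthogonality of automorphisms with separated supports -/
theorem orth_of_split {x z : OAut ℚ} (c : ℚ) (hx : 1 ≤ x) (hz : 1 ≤ z)
    (h1 : ∀ t, c ≤ t → x.f t = t) (h2 : ∀ t, t ≤ c → z.f t = t) : x ⊓ z = 1 := by
  apply OAut.ext_f
  intro t
  rw [OAut.inf_f, OAut.one_f]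
  rcases le_total c t with h | h
  · rw [h1 t h]
    exact min_eq_left (hz t)
  · rw [h2 t h]
    exact min_eq_right (hx t)

theorem b1Q_inf_b2Q : b1Q ⊓ b2Q = 1 := by
  refine orth_of_split (-1) one_le_b1Q one_le_b2Q (fun t ht => b1Q_f_of_pos ht) ?_
  intro t ht
  rw [b2Q_f]
  exact max_eq_left (by linarith)

theorem b1Q_inf_aQ : b1Q ⊓ aQ = 1 := by
  refine orth_of_split (-1) one_le_b1Q one_lt_aQ.le (fun t ht => b1Q_f_of_pos ht) ?_
  intro t ht
  rw [aQ_f]
  exact aF_nonpos (by linarith)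

theorem xx₁_inf_aQ : xx₁ ⊓ aQ = 1 := by
  refine orth_of_split 0 le_sup_left one_lt_aQ.le ?_ ?_
  · intro t ht
    simp only [xx₁, OAut.sup_f, OAut.inf_f, OAut.one_f, aff_f]
    apply max_eq_left
    exact (min_le_right _ _).trans (by linarith)
  · intro t ht
    rw [aQ_f]
    exact aF_nonpos ht

theorem xx₂_inf_b1Q : xx₂ ⊓ b1Q = 1 := by
  rw [inf_comm]
  refine orth_of_split (-1) one_le_b1Q le_sup_left (fun t ht => b1Q_f_of_pos ht) ?_
  intro t ht
  simp only [xx₂, OAut.sup_f, OAut.one_f, aff_f]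
  exact max_eq_left (by linarith)

theorem yy_conj : yy * b1Q * yy⁻¹ ≤ aQ := by
  have : yy * b1Q * yy⁻¹ = cQ := by rw [b1Q]; group
  rw [this]
  exact cQ_le_aQ

theorem aQ_pow_lt (n : ℕ) {t : ℚ} (ht : 0 < t) :
    0 < (aQ ^ n).f t ∧ lam ((aQ ^ n).f t) = lam t := by
  induction n with
  | zero => simp [ht]
  | succ n ih =>
    rw [pow_succ', OAut.mul_f, aQ_f]
    exact ⟨ih.1.trans_le le_aF, by rw [lam_aF ih.1, ih.2]⟩

theorem aQ_pow_of_nonpos (n : ℕ) {t : ℚ} (ht : t ≤ 0) : (aQ ^ n).f t = t := by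
  induction n with
  | zero => simp
  | succ n ih => rw [pow_succ', OAut.mul_f, ih, aQ_f, aF_nonpos ht]

theorem aQ_pow_le (n : ℕ) : aQ ^ n ≤ b1Q * b2Q := by
  refine le_trans ?_ (le_mul_of_one_le_left' one_le_b1Q)
  intro t
  rw [b2Q_f]
  rcases le_or_gt t 0 with ht | ht
  · rw [aQ_pow_of_nonpos n ht]; exact le_max_left _ _
  · refine le_trans ?_ (le_max_right _ _)
    obtain ⟨h1, h2⟩ := aQ_pow_lt n ht
    have h3 := lt_lam ((aQ ^ n).f t)
    rw [h2] at h3
    have h4 := lam_le ht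
    linarith

theorem b2Q_comm : b2Q * aQ = aQ * b2Q := by
  apply OAut.ext_f
  intro t
  rw [OAut.mul_f, OAut.mul_f, aQ_f, aQ_f]
  rcases le_or_gt t 0 with ht | ht
  · rw [aF_nonpos ht, b2Q_f, max_eq_left (by linarith), aF_nonpos ht]
  · have h1 : 0 < aF t := ht.trans_le le_aF
    rw [b2Q_f, b2Q_f, max_eq_right (by linarith), max_eq_right (by linarith), add_zero, add_zero,
      aF_pos ht, aF_pos (by linarith), lam_two_mul ht]
    rw [mul_min_of_nonneg _ _ (by norm_num)]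
    congr 1 <;> ring

theorem bQ_comm : (b1Q * b2Q) * aQ = aQ * (b1Q * b2Q) := by
  rw [mul_assoc, b2Q_comm, ← mul_assoc, orth_commute b1Q_inf_aQ, mul_assoc]

theorem one_le_gQ : 1 ≤ gQ := le_sup_left

theorem gQ_le : gQ ≤ b1Q * b2Q := by
  refine le_trans ?_ (le_mul_of_one_le_left' one_le_b1Q)
  intro t
  rw [b2Q_f, gQ_f]
  rcases le_total t 0 with ht | ht
  · rw [max_eq_left (by linarith)]
    exact le_max_left _ _
  · refine max_le (le_max_left _ _) ((?_ : _ ≤ _).trans (le_max_right _ _))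
    linarith

/-- strong push: `a` maps everything above `(35/32) L` above `(7/4) L` -/
theorem push {L t : ℚ} (hL : lam L = L) (h : 35 / 32 * L ≤ t) : 7 / 4 * L ≤ aF t := by
  have hL0 : 0 < L := by rw [← hL]; exact lam_pos L
  have ht : 0 < t := by linarith
  have h1 : L ≤ lam t := by
    have := lam_mono hL0 (show L ≤ t by linarith)
    rwa [hL] at this
  rcases h1.eq_or_lt with h2 | h2
  · rw [aF_pos ht, ← h2]
    exact le_min (by linarith) (by linarith)
  · have h3 : 2 * lam L ≤ lam t := lam_lt (by rw [hL]; exact h2)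
    rw [hL] at h3
    have h4 := lam_le ht
    have h5 : t ≤ aF t := le_aF
    linarith

/-- the conjugate `g a g⁻¹` on positive numbers -/
theorem conj_f {t : ℚ} (ht : 0 < t) : (gQ * aQ * gQ⁻¹).f t = 3 / 2 * aF (2 / 3 * t) := by
  rw [OAut.mul_f, OAut.mul_f, gQ_g, aQ_f, gQ_f]
  have h1 : min t ((t - 0) / (3 / 2)) = 2 / 3 * t := by
    rw [min_eq_right]
    · ring
    · rw [sub_zero, div_le_iff₀ (by norm_num)]; linarith
  rw [h1]
  have h2 : 2 / 3 * t ≤ aF (2 / 3 * t) := le_aF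
  rw [max_eq_right (by linarith), add_zero]

theorem conj_nonpos {t : ℚ} (ht : t ≤ 0) : (gQ * aQ * gQ⁻¹).f t = t := by
  rw [OAut.mul_f, OAut.mul_f, gQ_g, aQ_f, gQ_f]
  have h1 : min t ((t - 0) / (3 / 2)) = t := by
    apply min_eq_left
    rw [sub_zero, le_div_iff₀ (by norm_num)]; linarith
  rw [h1, aF_nonpos ht, max_eq_left (by linarith)]

/-- `f = a (g a g⁻¹)` -/
def fQ : OAut ℚ := aQ * (gQ * aQ * gQ⁻¹)

theorem fQ_f (t : ℚ) : fQ.f t = aF ((gQ * aQ * gQ⁻¹).f t) := rfl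

theorem fQ_one {L t : ℚ} (hL : lam L = L) (h : L ≤ t) : 7 / 4 * L ≤ fQ.f t := by
  have hL0 : 0 < L := by rw [← hL]; exact lam_pos L
  have ht : 0 < t := by linarith
  rw [fQ_f]
  apply push hL
  rw [conj_f ht]
  have h1 : lam (L / 2) = L / 2 := by rw [lam_half hL0, hL]
  have h2 : 7 / 4 * (L / 2) ≤ aF (2 / 3 * t) := push h1 (by linarith)
  linarith

theorem fQ_two {L t : ℚ} (hL : lam L = L) (h : 7 / 4 * L ≤ t) : 7 / 2 * L ≤ fQ.f t := by
  have hL0 : 0 < L := by rw [← hL]; exact lam_pos L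
  have ht : 0 < t := by linarith
  rw [fQ_f]
  have h1 : lam (2 * L) = 2 * L := by rw [lam_two_mul hL0, hL]
  have h3 : 35 / 32 * (2 * L) ≤ (gQ * aQ * gQ⁻¹).f t := by
    rw [conj_f ht]
    have h2 : 7 / 4 * L ≤ aF (2 / 3 * t) := push hL (by linarith)
    linarith
  have := push h1 h3
  linarith

theorem cert : b2Q ≤ (aQ * (gQ * aQ * gQ⁻¹)) * (aQ * (gQ * aQ * gQ⁻¹)) := by
  change b2Q ≤ fQ * fQ
  intro t
  rw [OAut.mul_f]
  rcases le_or_gt t 0 with ht | ht
  · rw [b2Q_f, max_eq_left (by linarith)]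
    have h1 : fQ.f t = t := by rw [fQ_f, conj_nonpos ht, aF_nonpos ht]
    rw [h1, h1]
  · rw [b2Q_f, max_eq_right (by linarith), add_zero]
    have hL := lam_lam t
    have h1 := lam_le ht
    have h2 := lt_lam t
    rcases le_total t (7 / 4 * lam t) with h | h
    · have h3 := fQ_two hL (fQ_one hL h1)
      linarith
    · have h3 := fQ_two hL h
      have h4 : lam (2 * lam t) = 2 * lam t := by rw [lam_two_mul (lam_pos t), hL]
      have h5 := fQ_two h4 (show 7 / 4 * (2 * lam t) ≤ fQ.f t by linarith)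
      linarith

end Pool.Agent.Work.MP_d8fac8_al
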